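import Pool.Agent.Lib_helper72.MC12b.Q
import Pool.Agent.Lib_helper72.MC12b.T

/-!
# c12b: all checks
-/

set_option autoImplicit false
set_option maxRecDepth 100000

namespace Pool.Agent.MC12b

open Pool.Agent.KC72 Pool.Agent.MC

theorem c12b_0 : Num c12b c12b_t := by decide +kernel

theorem c12b_om : xm c12b.kb c12b.ko (c12b.m * c12b.N) c12b.Om = true := by decide +kernel

theorem c12b_b : cB c12b = true := by decide +kernel

theorem c12b_r0 : blk (cR c12b) c12b.rels 60 0 = true := by decide +kernel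

theorem c12b_r1 : blk (cR c12b) c12b.rels 60 1 = true := by decide +kernel

theorem c12b_r2 : blk (cR c12b) c12b.rels 60 2 = true := by decide +kernel

theorem c12b_r3 : blk (cR c12b) c12b.rels 60 3 = true := by decide +kernel

theorem c12b_r4 : blk (cR c12b) c12b.rels 60 4 = true := by decide +kernel

theorem c12b_r' : ∀ k < 5, blk (cR c12b) c12b.rels 60 k = true
  | 0, _ => c12b_r0
  | 1, _ => c12b_r1
  | 2, _ => c12b_r2
  | 3, _ => c12b_r3
  | 4, _ => c12b_r4
  | k + 5, h => absurd h (by omega)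

theorem c12b_g : allI (fun c g => cG c12b.DG c12b_t.B c12b_t.MA c12b_t.P2 c12b_t.MB c g) c12b.G 0 = true := by decide +kernel

theorem c12b_g' : c12b.toCert.chk3' = true := by decide +kernel

theorem c12b_k1 : (c12b.cls.take c12b.m).map (prF c12b_t.p c12b.n c12b.r) = c12b_t.PR := by decide +kernel

theorem c12b_k2 : (c12b.cls.take c12b.m).map (pkw (Int.ofNat c12b_t.Z) (Int.ofNat (Nat.pow c12b_t.Z c12b.n)) c12b.r) = c12b_t.PM := by decide +kernel

theorem c12b_k3 : c12b_t.P2.map (fun x => pmb (Int.ofNat c12b_t.B) x.1 x.2 (c12b.cls.take c12b.m)) = c12b_t.MB := by decide +kernel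

theorem c12b_e : c12b.cls.all (fun e => bdE c12b_t.MA c12b.n e.1.2 && bdE c12b_t.MA c12b.n e.2.2) = true := by decide +kernel

theorem c12b_xq : c12b_t.XQ.all (fun X => X.all (xm c12b_t.a c12b_t.d c12b_t.S)) = true := by decide +kernel

theorem c12b_xt : c12b_t.XT.all (fun X => X.all (xm c12b_t.a' c12b_t.d' c12b_t.K)) = true := by decide +kernel

/-- all checks -/
theorem c12b_ok : ROk c12b :=
  rOk_of (A := c12b_t) (l4 := 60) (n4 := 5) (lQ := 40) (nQ := 10) (lT := 40) (nT := 10) c12b_0 c12b_om c12b_b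
    (by decide) (by decide +kernel) c12b_r' c12b_g c12b_g' ⟨c12b_k1, c12b_k2, c12b_k3⟩ c12b_e c12b_xq c12b_xt (by decide) (by decide +kernel) c12b_q'
    (by decide) (by decide +kernel) c12b_t'

end Pool.Agent.MC12b
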